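import Pool.Agent.V11230.CK3
import Pool.Agent.V11230.SVD2
import Pool.Agent.NPC.Dec
import Pool.Agent.Y644.QS.PolyBase

/-!
# k-Click Score-Variant Clickomania is W[2]-hard

A polynomial-time reduction from Dominating Set, where the parameter grows from `t` to `t + 1`.  The
board has a column for each vertex and reference columns between them.  It has a layer for each
vertex `u`, which is one tile thicker in the columns of the closed neighbourhood of `u`, and on top
of each column there is a high red block.  The red block of the column of a vertex `j` starts where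
those of the neighbouring reference columns end, so it touches them when some layer `u` with `j` in
the closed neighbourhood of `u` has been removed.  The bound on the score forces that all red blocks
are removed.
-/

set_option autoImplicit false

namespace Pool.Agent.NPC.V11230.CKP

open Pool.Agent.NPC Pool.Agent.V11230.CK Pool.Agent.H622R2 Pool.Agent.V11230.DS
  Pool.Agent.V11230.SV

/-- an instance of Dominating Set -/
abbrev Src : Type := List (List Bool) × ℕ

/-- does `u` dominate `j` -/
def dmA (A : List (List Bool)) (u j : ℕ) : Bool := decide (u = j) || ed A u j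

/-- the board -/
def brd (A : List (List Bool)) : Board :=
  (List.range (2 * A.length + 1)).map (fun c => lay A.length (dmA A) (List.range A.length) c ++
    (sp A.length (dmA A) c ++ List.replicate (Ht A.length) A.length))

theorem st_empty (A : List (List Bool)) :
    Pool.Agent.V11230.CK.st A.length (dmA A) ∅ ∅ = brd A := by
  unfold Pool.Agent.V11230.CK.st brd
  refine List.map_congr_left fun c _ => ?_
  have e : lft A.length ∅ = List.range A.length := by
    unfold lft
    rw [List.filter_eq_self]
    intro a _
    simp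
  rw [e, rt_notMem (by simp)]

/-- the constructed instance: board, number of clicks, bound on the score -/
def inst (z : Src) : Board × ℕ × ℕ := (brd z.1, z.2 + 1, bound z.1.length)

section
variable {α : Type} [TEnc α] {A : α → List (List Bool)} {c u j : α → ℕ} {n : α → ℕ}

theorem poly_ed (hA : Poly A) (hu : Poly u) (hj : Poly j) :
    Poly (fun a => ed (A a) (u a) (j a)) :=
  Poly.and (Poly.not (Poly.decide_eq hu hj)) (Poly.or
    (Poly.getD (Poly.getD hA hu (Poly.const [])) hj (Poly.const false))
    (Poly.getD (Poly.getD hA hj (Poly.const [])) hu (Poly.const false)))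

theorem poly_dmA (hA : Poly A) (hu : Poly u) (hj : Poly j) :
    Poly (fun a => dmA (A a) (u a) (j a)) :=
  Poly.or (Poly.decide_eq hu hj) (poly_ed hA hu hj)

theorem upoly_Wt (hn : UPoly n) : UPoly (fun a => Wt (n a)) :=
  UPoly.mul (UPoly.add (UPoly.mul (UPoly.const 2) hn) (UPoly.const 1))
    (UPoly.mul hn (UPoly.add hn (UPoly.const 3)))

theorem upoly_Ht (hn : UPoly n) : UPoly (fun a => Ht (n a)) :=
  UPoly.add (UPoly.mul (UPoly.const 2) (upoly_Wt hn)) (UPoly.add hn (UPoly.const 2))

theorem poly_ex (hA : Poly A) (hu : Poly u) (hc : Poly c) :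
    Poly (fun a => ex (dmA (A a)) (u a) (c a)) := by
  have h1 : Poly (fun a => decide (c a % 2 = 1 ∧ dmA (A a) (u a) (c a / 2) = true)) := by
    refine (Poly.and (Poly.decide_eq (Poly.mod hc (Poly.const 2)) (Poly.const 1))
      (poly_dmA hA hu (Poly.div hc (Poly.const 2)))).congr fun a => ?_
    by_cases h2 : c a % 2 = 1 <;> cases h3 : dmA (A a) (u a) (c a / 2) <;> simp [h2]
  unfold ex
  exact Poly.ite h1 (Poly.const 1) (Poly.const 0)

theorem upoly_ex (hA : Poly A) (hu : Poly u) (hc : Poly c) :
    UPoly (fun a => ex (dmA (A a)) (u a) (c a)) :=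
  UPoly.of_le (poly_ex hA hu hc) (UPoly.const 1) (fun _ => ex_le _ _)

theorem uN (hA : Poly A) : UPoly (fun a => (A a).length) := UPoly.length hA

theorem poly_lay (hA : Poly A) (hc : Poly c) :
    Poly (fun a => lay (A a).length (dmA (A a)) (List.range (A a).length) (c a)) := by
  have hf : Poly (fun p : α × ℕ => p.1) := Poly.fst Poly.id
  have h : Poly (fun a => (List.range (A a).length).flatMap (fun u =>
      List.replicate ((A a).length + 2 + ex (dmA (A a)) u (c a)) u)) := by
    refine Poly.flatMap (F := fun a u =>
      List.replicate ((A a).length + 2 + ex (dmA (A a)) u (c a)) u) (uN hA).range ?_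
    refine Poly.replicateU (UPoly.add (UPoly.add (uN (hA.comp hf)) (UPoly.const 2)) ?_)
      (Poly.snd Poly.id)
    exact upoly_ex (α := α × ℕ) (A := fun p => A p.1) (u := fun p => p.2) (c := fun p => c p.1)
      (hA.comp hf) (Poly.snd Poly.id) (hc.comp hf)
  exact h

theorem poly_tot (hA : Poly A) (hc : Poly c) :
    Poly (fun a => tot (A a).length (dmA (A a)) (c a)) := by
  have hf : Poly (fun p : α × ℕ => p.1) := Poly.fst Poly.id
  have h : Poly (fun a => ((List.range (A a).length).map (fun u =>
      ex (dmA (A a)) u (c a))).sum) := by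
    refine Poly.sum (Poly.map (F := fun a u => ex (dmA (A a)) u (c a)) (uN hA).range ?_)
    exact poly_ex (α := α × ℕ) (A := fun p => A p.1) (u := fun p => p.2) (c := fun p => c p.1)
      (hA.comp hf) (Poly.snd Poly.id) (hc.comp hf)
  exact h

theorem upoly_spLen (hA : Poly A) (hc : Poly c) :
    UPoly (fun a => spLen (A a).length (dmA (A a)) (c a)) := by
  have hH := upoly_Ht (uN hA)
  have h1 : Poly (fun a => spLen (A a).length (dmA (A a)) (c a)) := by
    unfold spLen
    exact Poly.ite (Poly.decide_eq (Poly.mod hc (Poly.const 2)) (Poly.const 1))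
      (Poly.sub (Poly.add (Poly.const 1) hH.toPoly) (poly_tot hA hc)) (Poly.const 1)
  refine UPoly.of_le h1 (UPoly.add (UPoly.const 1) hH) fun a => ?_
  unfold spLen
  split_ifs <;> omega

theorem poly_sp (hA : Poly A) (hc : Poly c) :
    Poly (fun a => sp (A a).length (dmA (A a)) (c a)) := by
  have hf : Poly (fun p : α × ℕ => p.1) := Poly.fst Poly.id
  have h : Poly (fun a => (List.range (spLen (A a).length (dmA (A a)) (c a))).map (fun i =>
      (A a).length + 1 + (i * (2 * (A a).length + 1) + c a))) := by
    refine Poly.map (F := fun a i => (A a).length + 1 + (i * (2 * (A a).length + 1) + c a))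
      (upoly_spLen hA hc).range ?_
    have hn : Poly (fun p : α × ℕ => (A p.1).length) := Poly.length (hA.comp hf)
    exact Poly.add (Poly.add hn (Poly.const 1)) (Poly.add (Poly.mul (Poly.snd Poly.id)
      (Poly.add (Poly.mul (Poly.const 2) hn) (Poly.const 1))) (hc.comp hf))
  exact h

end

theorem poly_brd : Poly brd := by
  unfold brd
  have hA : Poly (fun A : List (List Bool) => A) := Poly.id
  refine Poly.map (F := fun (A : List (List Bool)) c =>
    lay A.length (dmA A) (List.range A.length) c ++
      (sp A.length (dmA A) c ++ List.replicate (Ht A.length) A.length))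
    (UPoly.add (UPoly.mul (UPoly.const 2) (uN hA)) (UPoly.const 1)).range ?_
  have hf : Poly (fun p : List (List Bool) × ℕ => p.1) := Poly.fst Poly.id
  have hs : Poly (fun p : List (List Bool) × ℕ => p.2) := Poly.snd Poly.id
  exact Poly.append (poly_lay hf hs) (Poly.append (poly_sp hf hs)
    (Poly.replicateU (upoly_Ht (uN hf)) (Poly.length hf)))

theorem poly_inst : Poly inst := by
  have hf : Poly (fun z : Src => z.1) := Poly.fst Poly.id
  have hn : UPoly (fun z : Src => z.1.length) := uN hf
  unfold inst
  refine Poly.pair (poly_brd.comp hf) (Poly.pair (Poly.add (Poly.snd Poly.id) (Poly.const 1)) ?_)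
  unfold bound
  exact Poly.add (Poly.mul (Poly.mul (Poly.const 2) hn.toPoly) (upoly_Ht hn).toPoly)
    (upoly_Wt hn).toPoly

/-- the reduction -/
def red (x : List Bool) : List Bool := bits (inst ((unbits Src x).getD ([], 0)))

theorem polyTime_red : PolyTime red := by
  refine polyTime_bits (g := fun x => inst ((unbits Src x).getD ([], 0))) ?_
  exact poly_inst.comp ((Poly.optCases (o := fun x => unbits Src x)
    (g := fun _ => (([], 0) : Src)) (h := fun _ I => I) poly_unbits (Poly.const _)
    (Poly.snd Poly.id)).congr fun x => by cases unbits Src x <;> rfl)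

theorem red_bits (z : Src) : red (bits z) = bits (inst z) := by
  unfold red
  rw [unbits_bits, Option.getD_some]

end Pool.Agent.NPC.V11230.CKP

namespace Pool.Agent.Results.MP_e74eef_lc.ScoreW2Hard

open Pool.Agent.NPC Pool.Agent.V11230.CK Pool.Agent.NPC.V11230.CKP Pool.Agent.H622R2
  Pool.Agent.V11230.DS Pool.Agent.V11230.SV

/-- `G` has a dominating set of at most `t` vertices -/
def DomSet {V : Type} [Fintype V] (G : SimpleGraph V) (t : ℕ) : Prop :=
  ∃ D : Finset V, D.card ≤ t ∧ ∀ v, ∃ u ∈ D, u = v ∨ G.Adj u v

theorem domSet_iff (A : List (List Bool)) (t : ℕ) : DomSet (matGraph A) t ↔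
    ∃ D : Finset ℕ, (∀ u ∈ D, u < A.length) ∧ D.card ≤ t ∧
      ∀ j < A.length, ∃ u ∈ D, dmA A u j = true := by
  have key : ∀ u v : Fin A.length, (u = v ∨ (matGraph A).Adj u v) ↔ dmA A u v = true := by
    intro u v
    unfold dmA
    rw [adj_ed, Bool.or_eq_true, decide_eq_true_iff, Fin.ext_iff]
  constructor
  · rintro ⟨D, hD, hdom⟩
    refine ⟨D.image Fin.val, ?_, Finset.card_image_le.trans hD, ?_⟩
    · intro u hu
      rw [Finset.mem_image] at hu
      obtain ⟨v, _, rfl⟩ := hu
      exact v.2
    · intro j hj
      obtain ⟨u, hu, h⟩ := hdom ⟨j, hj⟩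
      exact ⟨u, Finset.mem_image_of_mem _ hu, (key u ⟨j, hj⟩).1 h⟩
  · rintro ⟨D, hD, hcard, hdom⟩
    refine ⟨D.attach.image (fun u => (⟨u.1, hD u.1 u.2⟩ : Fin A.length)), ?_, ?_⟩
    · refine Finset.card_image_le.trans ?_
      rwa [Finset.card_attach]
    · intro v
      obtain ⟨u, hu, h⟩ := hdom v v.2
      refine ⟨⟨u, hD u hu⟩, ?_, (key _ _).2 h⟩
      rw [Finset.mem_image]
      exact ⟨⟨u, hu⟩, Finset.mem_attach _ _, rfl⟩

/-- **k-Click Score-Variant Clickomania, parameterized by the number of clicks, is W[2]-hard.**

There is a polynomial-time reduction `f` from Dominating Set (the graph of a Boolean matrix `A` and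
the size `t`) to the score variant, which maps the parameter `t` to the number `t + 1` of clicks. -/
theorem result : ∃ f : List Bool → List Bool, PolyTime f ∧ ∀ (A : List (List Bool)) (t : ℕ),
    ∃ (B : Board) (S : ℕ), f (bits (A, t)) = bits (B, t + 1, S) ∧ (∀ c ∈ B, c ≠ []) ∧
      (Score B (t + 1) S ↔ DomSet (matGraph A) t) := by
  refine ⟨red, polyTime_red, fun A t => ⟨brd A, bound A.length, red_bits (A, t), ?_, ?_⟩⟩
  · intro c hc
    unfold brd at hc
    rw [List.mem_map] at hc
    obtain ⟨i, _, rfl⟩ := hc
    have := sp_ne_nil (n := A.length) (dm := dmA A) i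
    simp [this]
  · rw [← st_empty, score_iff (fun j _ => by simp [dmA]), domSet_iff]

end Pool.Agent.Results.MP_e74eef_lc.ScoreW2Hard
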